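import Pool.Agent.TH179.SD.Kth

/-!
# Project SD: polar decomposition of skew-symmetric matrices
-/

set_option autoImplicit false

open scoped Topology MatrixOrder
open Set Filter

noncomputable section

namespace Pool.Agent.TH720.SD
open Pool.Agent.TH179.SD

variable {n : ℕ}

/-- the conditions on a polar decomposition -/
structure IsPol (A J P : Matrix (Fin n) (Fin n) ℝ) : Prop where
  skew : J.transpose = -J
  sq : J * J = -1
  pos : P.PosDef
  eq : A = J * P
  comm : J * P = P * J

/-- the positive factor -/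
lemma IsPol.mul_self {A J P : Matrix (Fin n) (Fin n) ℝ} (h : IsPol A J P) :
    P * P = A.transpose * A := by
  have hP : P.transpose = P := by
    have := h.pos.isHermitian
    rwa [Matrix.IsHermitian, Matrix.conjTranspose_eq_transpose_of_trivial] at this
  rw [h.eq, Matrix.transpose_mul, hP, h.skew]
  calc P * P = -(P * (J * J) * P) := by rw [h.sq]; simp
    _ = P * -J * (J * P) := by simp [Matrix.mul_assoc]

lemma IsPol.sqrt {A J P : Matrix (Fin n) (Fin n) ℝ} (h : IsPol A J P) :
    CFC.sqrt (A.transpose * A) = P :=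
  CFC.sqrt_unique h.mul_self h.pos.posSemidef.nonneg

lemma IsPol.unique {A J P J' P' : Matrix (Fin n) (Fin n) ℝ} (h : IsPol A J P)
    (h' : IsPol A J' P') : J = J' := by
  have h1 : P = P' := by rw [← h.sqrt, h'.sqrt]
  subst h1
  have h2 : J * P = J' * P := by rw [← h.eq, h'.eq]
  exact h.pos.isUnit.mul_right_cancel h2

lemma exists_isPol (A : Matrix (Fin n) (Fin n) ℝ) (hA : A.transpose = -A) (hd : A.det ≠ 0) :
    ∃ J P, IsPol A J P := by
  set S := A.transpose * A with hS
  have hSn : 0 ≤ S := by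
    have := Matrix.posSemidef_conjTranspose_mul_self A
    rw [Matrix.conjTranspose_eq_transpose_of_trivial] at this
    exact this.nonneg
  set P := CFC.sqrt S with hP
  have hPn : 0 ≤ P := CFC.sqrt_nonneg S
  have hPP : P * P = S := CFC.sqrt_mul_sqrt_self S hSn
  have hdS : S.det ≠ 0 := by
    rw [hS, Matrix.det_mul, Matrix.det_transpose]
    exact mul_ne_zero hd hd
  have hdP : P.det ≠ 0 := by
    intro h
    apply hdS
    rw [← hPP, Matrix.det_mul, h, zero_mul]
  have hPpos : P.PosDef := (Matrix.nonneg_iff_posSemidef.1 hPn).posDef_iff_det_ne_zero.2 hdP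
  have hSA : Commute S A := by
    rw [hS, hA]
    change -A * A * A = A * (-A * A)
    simp [Matrix.mul_assoc]
  have hPA : Commute P A := by
    rw [hP, CFC.sqrt]
    exact hSA.cfcₙ_nnreal _
  have hPT : P.transpose = P := by
    have := hPpos.isHermitian
    rwa [Matrix.IsHermitian, Matrix.conjTranspose_eq_transpose_of_trivial] at this
  have hu : IsUnit P.det := isUnit_iff_ne_zero.2 hdP
  have hPi : P⁻¹ * A = A * P⁻¹ := by
    have h1 : P * A = A * P := hPA
    calc P⁻¹ * A = P⁻¹ * (A * P) * P⁻¹ := by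
          rw [Matrix.mul_assoc, Matrix.mul_assoc, Matrix.mul_nonsing_inv _ hu, Matrix.mul_one]
      _ = P⁻¹ * (P * A) * P⁻¹ := by rw [h1]
      _ = A * P⁻¹ := by
          rw [← Matrix.mul_assoc, Matrix.nonsing_inv_mul _ hu, Matrix.one_mul]
  refine ⟨A * P⁻¹, P, ?_, ?_, hPpos, ?_, ?_⟩
  · rw [Matrix.transpose_mul, Matrix.transpose_nonsing_inv, hPT, hA, Matrix.mul_neg, hPi]
  · calc A * P⁻¹ * (A * P⁻¹) = A * (P⁻¹ * A) * P⁻¹ := by simp only [Matrix.mul_assoc]
      _ = A * (A * P⁻¹) * P⁻¹ := by rw [hPi]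
      _ = (A * A) * (P⁻¹ * P⁻¹) := by simp only [Matrix.mul_assoc]
      _ = -(S * (P⁻¹ * P⁻¹)) := by rw [hS, hA]; simp
      _ = -(P * (P * P⁻¹) * P⁻¹) := by rw [← hPP]; simp only [Matrix.mul_assoc]
      _ = -1 := by
          rw [Matrix.mul_nonsing_inv _ hu, Matrix.mul_one, Matrix.mul_nonsing_inv _ hu]
  · rw [Matrix.mul_assoc, Matrix.nonsing_inv_mul _ hu, Matrix.mul_one]
  · rw [Matrix.mul_assoc, Matrix.nonsing_inv_mul _ hu, Matrix.mul_one, ← hPi,
      ← Matrix.mul_assoc, Matrix.mul_nonsing_inv _ hu, Matrix.one_mul]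

/-- the set of orthogonal complex structures is compact -/
lemma isCompact_J : IsCompact {J : Matrix (Fin n) (Fin n) ℝ | J.transpose = -J ∧ J * J = -1} := by
  have hc : IsClosed {J : Matrix (Fin n) (Fin n) ℝ | J.transpose = -J ∧ J * J = -1} := by
    refine IsClosed.inter ?_ ?_
    · exact isClosed_eq (continuous_id.matrix_transpose) continuous_neg
    · exact isClosed_eq (continuous_id.matrix_mul continuous_id) continuous_const
  have hsub : {J : Matrix (Fin n) (Fin n) ℝ | J.transpose = -J ∧ J * J = -1} ⊆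
      Set.pi univ (fun _ : Fin n => Set.pi univ (fun _ : Fin n => Icc (-1 : ℝ) 1)) := by
    rintro J ⟨h1, h2⟩ i - j -
    have h3 : J * J.transpose = 1 := by rw [h1, Matrix.mul_neg, h2, neg_neg]
    have h4 : ∑ k, J i k * J i k = 1 := by
      have := congrFun (congrFun h3 i) i
      rw [Matrix.mul_apply, Matrix.one_apply_eq] at this
      simpa using this
    have h5 : J i j * J i j ≤ 1 := by
      rw [← h4]
      exact Finset.single_le_sum (f := fun k => J i k * J i k)
        (fun k _ => mul_self_nonneg _) (Finset.mem_univ j)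
    have h6 : |J i j| ≤ 1 := by
      rw [← sq_le_one_iff_abs_le_one, sq]
      exact h5
    exact ⟨(abs_le.1 h6).1, (abs_le.1 h6).2⟩
  have hK : IsCompact (Set.pi univ (fun _ : Fin n => Set.pi univ
      (fun _ : Fin n => Icc (-1 : ℝ) 1))) :=
    isCompact_univ_pi fun _ => isCompact_univ_pi fun _ => isCompact_Icc
  exact IsCompact.of_isClosed_subset hK hc hsub

lemma isClosed_psd : IsClosed {P : Matrix (Fin n) (Fin n) ℝ | P.PosSemidef} := by
  have h : {P : Matrix (Fin n) (Fin n) ℝ | P.PosSemidef} =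
      {P : Matrix (Fin n) (Fin n) ℝ | P.transpose = P} ∩
        ⋂ x : Fin n → ℝ, {P | 0 ≤ x ⬝ᵥ P.mulVec x} := by
    ext P
    simp only [mem_ofPred_eq, mem_inter_iff, mem_iInter]
    rw [Matrix.posSemidef_iff_dotProduct_mulVec, Matrix.IsHermitian,
      Matrix.conjTranspose_eq_transpose_of_trivial]
    simp
  rw [h]
  refine IsClosed.inter ?_ (isClosed_iInter fun x => ?_)
  · exact isClosed_eq (continuous_id.matrix_transpose) continuous_id
  · refine isClosed_le continuous_const ?_
    exact continuous_const.dotProduct (continuous_id.matrix_mulVec continuous_const)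

open Classical in
/-- the complex structure of the polar decomposition -/
def pol (A : Matrix (Fin n) (Fin n) ℝ) : Matrix (Fin n) (Fin n) ℝ :=
  if h : ∃ J P, IsPol A J P then h.choose else 0

lemma pol_spec (A : Matrix (Fin n) (Fin n) ℝ) (hA : A.transpose = -A) (hd : A.det ≠ 0) :
    ∃ P, IsPol A (pol A) P := by
  have h := exists_isPol A hA hd
  unfold pol
  rw [dif_pos h]
  exact h.choose_spec

lemma IsPol.neg_mul {A J P : Matrix (Fin n) (Fin n) ℝ} (h : IsPol A J P) : -(J * A) = P := by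
  rw [h.eq, ← Matrix.mul_assoc, h.sq]
  simp

lemma IsPol.comm' {A J P : Matrix (Fin n) (Fin n) ℝ} (h : IsPol A J P) : J * A = A * J := by
  rw [h.eq, Matrix.mul_assoc, ← h.comm]

lemma isPol_of {A J : Matrix (Fin n) (Fin n) ℝ} (hd : A.det ≠ 0) (h1 : J.transpose = -J)
    (h2 : J * J = -1) (h3 : (-(J * A)).PosSemidef) (h4 : J * A = A * J) :
    IsPol A J (-(J * A)) := by
  have h5 : A = J * -(J * A) := by
    rw [Matrix.mul_neg, ← Matrix.mul_assoc, h2]; simp
  refine ⟨h1, h2, ?_, h5, ?_⟩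
  · rw [h3.posDef_iff_det_ne_zero]
    intro h
    apply hd
    rw [h5, Matrix.det_mul, h, mul_zero]
  · rw [← h5, Matrix.neg_mul, h4, Matrix.mul_assoc, h2]; simp

/-- the closed relation defining the polar decomposition -/
def Rel (n : ℕ) : Set (Matrix (Fin n) (Fin n) ℝ × Matrix (Fin n) (Fin n) ℝ) :=
  {p | (-(p.1 * p.2)).PosSemidef ∧ p.1 * p.2 = p.2 * p.1}

lemma isClosed_Rel : IsClosed (Rel n) := by
  refine IsClosed.inter ?_ ?_
  · exact isClosed_psd.preimage (continuous_fst.matrix_mul continuous_snd).neg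
  · exact isClosed_eq (continuous_fst.matrix_mul continuous_snd)
      (continuous_snd.matrix_mul continuous_fst)

lemma pol_continuousOn :
    ContinuousOn pol {A : Matrix (Fin n) (Fin n) ℝ | A.transpose = -A ∧ A.det ≠ 0} := by
  intro A hA
  refine isCompact_J.tendsto_nhds_of_unique_mapClusterPt (Filter.mem_of_superset
    self_mem_nhdsWithin ?_) ?_
  · intro B hB
    obtain ⟨P, hP⟩ := pol_spec B hB.1 hB.2
    exact ⟨hP.skew, hP.sq⟩
  · rintro J ⟨hJ1, hJ2⟩ hJ
    rw [mapClusterPt_iff_ultrafilter] at hJ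
    obtain ⟨U, hU, hUJ⟩ := hJ
    have hUA : Tendsto (fun B : Matrix (Fin n) (Fin n) ℝ => B)
        (U : Filter (Matrix (Fin n) (Fin n) ℝ)) (𝓝 A) :=
      tendsto_id'.2 (hU.trans nhdsWithin_le_nhds)
    have hUS : ∀ᶠ B in (U : Filter (Matrix (Fin n) (Fin n) ℝ)), (pol B, B) ∈ Rel n := by
      refine Filter.mem_of_superset (hU self_mem_nhdsWithin) ?_
      intro B hB
      obtain ⟨P, hP⟩ := pol_spec B hB.1 hB.2
      refine ⟨?_, hP.comm'⟩
      change (-(pol B * B)).PosSemidef
      rw [hP.neg_mul]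
      exact hP.pos.posSemidef
    have ht := hUJ.prodMk_nhds hUA
    obtain ⟨h1, h2⟩ := isClosed_Rel.mem_of_tendsto ht hUS
    obtain ⟨P, hP⟩ := pol_spec A hA.1 hA.2
    exact (isPol_of hA.2 hJ1 hJ2 h1 h2).unique hP

theorem taskPolar : TaskPolar := by
  intro n
  refine ⟨pol, pol_continuousOn, ?_⟩
  intro A hA hd
  obtain ⟨P, hP⟩ := pol_spec A hA hd
  refine ⟨hP.skew, hP.sq, ⟨P, hP.pos, hP.eq, hP.comm⟩, ?_⟩
  intro J P' h1 h2 h3 h4 h5
  exact IsPol.unique ⟨h1, h2, h3, h4, h5⟩ hP

end Pool.Agent.TH720.SD
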